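import Pool.Graph.R_pool_sql_team_seeded_35f281b4.L0.W4.Claims

/-!
# The local lemma, for the norm form `x² + d y²`
-/

set_option autoImplicit false

open Polynomial

universe u

namespace Pool.Agent.H43.WB

open Pool.Agent.L0.W4 Pool.Agent.L0.W4.Plc

/-- The form `⟨1,d,-c,-cd⟩` is anisotropic. -/
def AniA {F : Type*} [Field F] (d c : F) : Prop :=
  ∀ a b e f : F, a ^ 2 + d * b ^ 2 = c * (e ^ 2 + d * f ^ 2) → a = 0 ∧ b = 0 ∧ e = 0 ∧ f = 0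

theorem AniA.anis {F : Type*} [Field F] {d c : F} (h : AniA d c) (v : Fin 4 → F)
    (hv : ∑ i, (![1, d, -c, -(c * d)] : Fin 4 → F) i * v i ^ 2 = 0) : v = 0 := by
  rw [Fin.sum_univ_four] at hv
  simp at hv
  have := h (v 0) (v 1) (v 2) (v 3) (by linear_combination hv)
  funext i
  fin_cases i
  · exact this.1
  · exact this.2.1
  · exact this.2.2.1
  · exact this.2.2.2

theorem aniA_of_anis {F : Type*} [Field F] {d c : F}
    (h : ∀ v : Fin 4 → F, ∑ i, (![1, d, -c, -(c * d)] : Fin 4 → F) i * v i ^ 2 = 0 → v = 0) :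
    AniA d c := by
  intro a b e f habe
  have := h ![a, b, e, f] (by
    rw [Fin.sum_univ_four]
    simp
    linear_combination habe)
  exact ⟨congrFun this 0, congrFun this 1, congrFun this 2, congrFun this 3⟩

theorem AniA.odd {F E : Type*} [Field F] [CharZero F] [Field E] [Algebra F E]
    [FiniteDimensional F E] (hodd : Odd (Module.finrank F E)) {d c : F} (h : AniA d c) :
    AniA (algebraMap F E d) (algebraMap F E c) := by
  refine aniA_of_anis fun v hv => ?_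
  refine springer hodd ![1, d, -c, -(c * d)] h.anis v ?_
  rw [Fin.sum_univ_four] at hv ⊢
  simpa using hv

/-- the case of an element which is not represented by `⟨1,d⟩` -/
theorem aniA_of_not {F : Type*} [Field F] (hR : Rl F) {d c : F} (hd0 : d ≠ 0) (hds : IsSumSq d)
    (hc : ¬ ∃ u v w : F, u ≠ 0 ∧ c * u ^ 2 = v ^ 2 + d * w ^ 2) : AniA d c := by
  intro a b e f h
  have h2 : ∀ x y : F, x ^ 2 + d * y ^ 2 = 0 → x = 0 ∧ y = 0 := by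
    intro x y hxy
    have h3 := hR (x ^ 2) (d * y ^ 2) (by rw [sq]; exact IsSumSq.mul_self _)
      (hds.mul (by rw [sq]; exact IsSumSq.mul_self _)) hxy
    have h4 : d * y ^ 2 = 0 := by rw [h3, zero_add] at hxy; exact hxy
    exact ⟨pow_eq_zero_iff two_ne_zero |>.1 h3,
      pow_eq_zero_iff two_ne_zero |>.1 ((mul_eq_zero.1 h4).resolve_left hd0)⟩
  by_cases hef : e ^ 2 + d * f ^ 2 = 0
  · rw [hef, mul_zero] at h
    obtain ⟨h3, h4⟩ := h2 _ _ h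
    obtain ⟨h5, h6⟩ := h2 _ _ hef
    exact ⟨h3, h4, h5, h6⟩
  · exfalso
    apply hc
    refine ⟨e ^ 2 + d * f ^ 2, a * e + d * (b * f), a * f - b * e, hef, ?_⟩
    linear_combination (-(e ^ 2 + d * f ^ 2)) * h

variable {L E κ : Type*} [Field L] [Field E] [Field κ] {ι : L →+* E} {ρ : L →+* κ} (w : Plc ι ρ)

theorem P_pair' (hR : Rl κ) (d : L) (hd0 : ρ d ≠ 0) (hds : IsSumSq (ρ d)) {a b : E}
    (h : a ≠ 0 ∨ b ≠ 0) : w.P (a ^ 2 + ι d * b ^ 2) := by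
  have hd : w.P (ι d) := w.P_unit (w.int_ι d) (by rw [w.r_ι]; exact hd0) (by rw [w.r_ι]; exact hds)
  by_cases ha : a = 0
  · rw [ha]
    have hb : b ≠ 0 := h.resolve_left (fun h => h ha)
    rw [zero_pow two_ne_zero, zero_add]
    exact w.P_mul hd (w.P_sq hb)
  · by_cases hb : b = 0
    · rw [hb, zero_pow two_ne_zero, mul_zero, add_zero]
      exact w.P_sq ha
    · exact w.P_add hR (w.P_sq ha) (w.P_mul hd (w.P_sq hb))

/-- the even part -/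
theorem even_part' (c d : L) (hA : AniA (ρ d) (ρ c)) {y₁ y₂ : E} (hy₁ : w.Int y₁)
    (hy₂ : w.Int y₂) (hy : w.r y₁ = - w.r y₂) (hy0 : w.r y₁ ≠ 0)
    (a₁ b₁ a₂ b₂ : E) (h : (a₁ ≠ 0 ∨ b₁ ≠ 0) ∨ (a₂ ≠ 0 ∨ b₂ ≠ 0)) :
    y₁ * (a₁ ^ 2 + ι d * b₁ ^ 2) + ι c * y₂ * (a₂ ^ 2 + ι d * b₂ ^ 2) ≠ 0 ∧
      Even (w.v (y₁ * (a₁ ^ 2 + ι d * b₁ ^ 2) + ι c * y₂ * (a₂ ^ 2 + ι d * b₂ ^ 2))) := by
  set M := y₁ * (a₁ ^ 2 + ι d * b₁ ^ 2) + ι c * y₂ * (a₂ ^ 2 + ι d * b₂ ^ 2) with hM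
  let f : Fin 4 → E := ![a₁, b₁, a₂, b₂]
  have hf : ∃ i, f i ≠ 0 := by
    rcases h with (h | h) | (h | h)
    · exact ⟨0, h⟩
    · exact ⟨1, h⟩
    · exact ⟨2, h⟩
    · exact ⟨3, h⟩
  obtain ⟨m, hm, i, hi0, hi⟩ := w.exists_min f hf
  have e0 : w.Int (w.ϖ ^ (-m) * a₁) := w.int_scale (hm 0)
  have e1 : w.Int (w.ϖ ^ (-m) * b₁) := w.int_scale (hm 1)
  have e2 : w.Int (w.ϖ ^ (-m) * a₂) := w.int_scale (hm 2)
  have e3 : w.Int (w.ϖ ^ (-m) * b₂) := w.int_scale (hm 3)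
  have hscale : w.ϖ ^ (-(2 * m)) * M = y₁ * ((w.ϖ ^ (-m) * a₁) ^ 2 + ι d * (w.ϖ ^ (-m) * b₁) ^ 2) +
      ι c * y₂ * ((w.ϖ ^ (-m) * a₂) ^ 2 + ι d * (w.ϖ ^ (-m) * b₂) ^ 2) := by
    have h1 : w.ϖ ^ (-(2 * m)) = (w.ϖ ^ (-m)) ^ 2 := by
      rw [← zpow_natCast, ← zpow_mul]
      congr 1
      push_cast
      ring
    rw [hM, h1]
    ring
  have i1 := w.int_add (w.int_pow e0 2) (w.int_mul (w.int_ι d) (w.int_pow e1 2))
  have i2 := w.int_add (w.int_pow e2 2) (w.int_mul (w.int_ι d) (w.int_pow e3 2))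
  have i3 := w.int_mul hy₁ i1
  have i4 := w.int_mul (w.int_mul (w.int_ι c) hy₂) i2
  have hr : w.r (w.ϖ ^ (-(2 * m)) * M) = w.r y₁ * ((w.r (w.ϖ ^ (-m) * a₁) ^ 2 +
      ρ d * w.r (w.ϖ ^ (-m) * b₁) ^ 2) - ρ c * (w.r (w.ϖ ^ (-m) * a₂) ^ 2 +
      ρ d * w.r (w.ϖ ^ (-m) * b₂) ^ 2)) := by
    rw [hscale, w.r_add _ _ i3 i4, w.r_mul _ _ hy₁ i1, w.r_mul _ _ (w.int_mul (w.int_ι c) hy₂) i2,
      w.r_mul _ _ (w.int_ι c) hy₂,
      w.r_add _ _ (w.int_pow e0 2) (w.int_mul (w.int_ι d) (w.int_pow e1 2)),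
      w.r_add _ _ (w.int_pow e2 2) (w.int_mul (w.int_ι d) (w.int_pow e3 2)),
      w.r_mul _ _ (w.int_ι d) (w.int_pow e1 2), w.r_mul _ _ (w.int_ι d) (w.int_pow e3 2),
      w.r_pow e0, w.r_pow e1, w.r_pow e2, w.r_pow e3, w.r_ι, w.r_ι, hy]
    ring
  have hne : w.r (w.ϖ ^ (-(2 * m)) * M) ≠ 0 := by
    rw [hr]
    intro h0
    rcases mul_eq_zero.1 h0 with h0 | h0
    · exact hy0 h0
    · obtain ⟨z1, z2, z3, z4⟩ := hA _ _ _ _ (sub_eq_zero.1 h0)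
      have := w.r_scale_ne hi0 hi
      fin_cases i
      · exact this z1
      · exact this z2
      · exact this z3
      · exact this z4
  have hint : w.Int (w.ϖ ^ (-(2 * m)) * M) := by
    rw [hscale]
    exact w.int_add i3 i4
  have h3 := w.v_of_r_ne hint hne
  have h4 : M ≠ 0 := right_ne_zero_of_mul h3.1
  refine ⟨h4, m, ?_⟩
  have := h3.2
  rw [w.v_scale h4] at this
  omega

/-- **The local lemma.** -/
theorem local_lemma' (hR : Rl κ) (c d : L) (hd0 : ρ d ≠ 0) (hds : IsSumSq (ρ d))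
    (hA : AniA (ρ d) (ρ c)) {y₁ y₂ e₃ e₄ t : E}
    (hy₁ : w.Int y₁) (hy₂ : w.Int y₂) (hy : w.r y₁ = - w.r y₂) (hy0 : w.r y₁ ≠ 0)
    (he₃ : w.P e₃) (he₄ : w.P e₄) (ht0 : t ≠ 0) (ht : Odd (w.v t))
    {a₁ b₁ a₂ b₂ a₃ b₃ a₄ b₄ : E} (h₁ : a₁ ≠ 0 ∨ b₁ ≠ 0) (h₂ : a₂ ≠ 0 ∨ b₂ ≠ 0)
    (h₃ : a₃ ≠ 0 ∨ b₃ ≠ 0) (h₄ : a₄ ≠ 0 ∨ b₄ ≠ 0) {n : ℕ} (V₁ V₂ V₃ V₄ : Fin n → E)
    (hV : (∃ k, V₁ k ≠ 0) ∨ (∃ k, V₂ k ≠ 0) ∨ (∃ k, V₃ k ≠ 0) ∨ (∃ k, V₄ k ≠ 0))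
    (heq : y₁ * (a₁ ^ 2 + ι d * b₁ ^ 2) * ∑ k, V₁ k ^ 2 + ι c * y₂ * (a₂ ^ 2 + ι d * b₂ ^ 2) * ∑ k, V₂ k ^ 2 +
      (t * e₃ * (a₃ ^ 2 + ι d * b₃ ^ 2) * ∑ k, V₃ k ^ 2 + t * e₄ * (a₄ ^ 2 + ι d * b₄ ^ 2) * ∑ k, V₄ k ^ 2) = 0)
    (p q : E) (hpq : p ≠ 0 ∨ q ≠ 0) (hrel : ∀ k, p * V₁ k + q * V₂ k = 0) : False := by
  have hvec : ∀ V : Fin n → E, (¬ ∃ k, V k ≠ 0) → V = 0 := by
    intro V h
    push Not at h
    exact funext h
  -- the vector `U`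
  obtain ⟨U, hU1, hU2⟩ : ∃ U : Fin n → E, (∀ k, V₁ k = q * U k) ∧ (∀ k, V₂ k = -p * U k) := by
    by_cases hp : p = 0
    · have hq : q ≠ 0 := hpq.resolve_left (fun h => h hp)
      refine ⟨fun k => V₁ k / q, fun k => by field_simp, fun k => ?_⟩
      have := hrel k
      rw [hp, zero_mul, zero_add] at this
      rw [hp, neg_zero, zero_mul]
      exact (mul_eq_zero.1 this).resolve_left hq
    · refine ⟨fun k => -V₂ k / p, fun k => ?_, fun k => by field_simp⟩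
      have := hrel k
      field_simp
      linear_combination this
  set M := y₁ * ((q * a₁) ^ 2 + ι d * (q * b₁) ^ 2) +
    ι c * y₂ * ((p * a₂) ^ 2 + ι d * (p * b₂) ^ 2) with hM
  obtain ⟨hM0, hMe⟩ := even_part' w c d hA hy₁ hy₂ hy hy0 (q * a₁) (q * b₁) (p * a₂) (p * b₂) (by
    rcases hpq with h | h
    · right
      rcases h₂ with h' | h'
      · left; exact mul_ne_zero h h'
      · right; exact mul_ne_zero h h'
    · left
      rcases h₁ with h' | h'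
      · left; exact mul_ne_zero h h'
      · right; exact mul_ne_zero h h')
  have hev : y₁ * (a₁ ^ 2 + ι d * b₁ ^ 2) * ∑ k, V₁ k ^ 2 + ι c * y₂ * (a₂ ^ 2 + ι d * b₂ ^ 2) * ∑ k, V₂ k ^ 2 =
      M * ∑ k, U k ^ 2 := by
    have h1 : ∑ k, V₁ k ^ 2 = q ^ 2 * ∑ k, U k ^ 2 := by
      rw [Finset.mul_sum]
      exact Finset.sum_congr rfl fun k _ => by rw [hU1 k]; ring
    have h2 : ∑ k, V₂ k ^ 2 = p ^ 2 * ∑ k, U k ^ 2 := by
      rw [Finset.mul_sum]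
      exact Finset.sum_congr rfl fun k _ => by rw [hU2 k]; ring
    rw [h1, h2, hM]
    ring
  rw [hev] at heq
  set O := e₃ * (a₃ ^ 2 + ι d * b₃ ^ 2) * ∑ k, V₃ k ^ 2 + e₄ * (a₄ ^ 2 + ι d * b₄ ^ 2) * ∑ k, V₄ k ^ 2 with hO
  have heq' : M * ∑ k, U k ^ 2 + t * O = 0 := by
    rw [hO]
    linear_combination heq
  have hP3 := w.P_mul he₃ (P_pair' w hR d hd0 hds h₃)
  have hP4 := w.P_mul he₄ (P_pair' w hR d hd0 hds h₄)
  have hOP : (V₃ = 0 ∧ V₄ = 0) ∨ w.P O := by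
    by_cases h3 : ∃ k, V₃ k ≠ 0
    · right
      by_cases h4 : ∃ k, V₄ k ≠ 0
      · exact w.P_add hR (w.P_mul hP3 (w.P_vec hR _ h3)) (w.P_mul hP4 (w.P_vec hR _ h4))
      · rw [hO, hvec _ h4]
        simp only [Pi.zero_apply, zero_pow two_ne_zero, Finset.sum_const_zero, mul_zero, add_zero]
        exact w.P_mul hP3 (w.P_vec hR _ h3)
    · by_cases h4 : ∃ k, V₄ k ≠ 0
      · right
        rw [hO, hvec _ h3]
        simp only [Pi.zero_apply, zero_pow two_ne_zero, Finset.sum_const_zero, mul_zero, zero_add]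
        exact w.P_mul hP4 (w.P_vec hR _ h4)
      · exact Or.inl ⟨hvec _ h3, hvec _ h4⟩
  by_cases hU : ∃ k, U k ≠ 0
  · have hPU := w.P_vec hR U hU
    have hEv0 : M * ∑ k, U k ^ 2 ≠ 0 := mul_ne_zero hM0 hPU.1
    rcases hOP with ⟨h3, h4⟩ | hOP
    · apply hEv0
      have : O = 0 := by rw [hO, h3, h4]; simp
      rw [this, mul_zero, add_zero] at heq'
      exact heq'
    · have h5 : M * ∑ k, U k ^ 2 = -(t * O) := by linear_combination heq'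
      have h6 := congrArg w.v h5
      rw [w.v_neg, w.v_mul _ _ hM0 hPU.1, w.v_mul _ _ ht0 hOP.1] at h6
      have h7 := hMe.add (w.P_even hPU)
      rw [h6] at h7
      have h8 := ht.add_even (w.P_even hOP)
      exact (Int.not_even_iff_odd.2 h8) h7
  · have hU' := hvec _ hU
    have h1 : V₁ = 0 := funext fun k => by rw [hU1 k, hU']; simp
    have h2 : V₂ = 0 := funext fun k => by rw [hU2 k, hU']; simp
    rw [hU'] at heq'
    simp only [Pi.zero_apply, zero_pow two_ne_zero, Finset.sum_const_zero, mul_zero, zero_add] at heq'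
    rcases hOP with ⟨h3, h4⟩ | hOP
    · rw [h1, h2, h3, h4] at hV
      simp at hV
    · rcases mul_eq_zero.1 heq' with h | h
      · exact ht0 h
      · exact hOP.1 h

end Pool.Agent.H43.WB
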