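import Mathlib

set_option autoImplicit false

namespace Pool.Agent.H43.WB
open Polynomial

theorem clear' {F : Type*} [Field F] {τ : Type*} [Finite τ] (f : τ → RatFunc F) :
    ∃ D : F[X], D ≠ 0 ∧ ∃ f' : τ → F[X], ∀ t,
      algebraMap F[X] (RatFunc F) D * f t = algebraMap F[X] (RatFunc F) (f' t) := by
  obtain ⟨b, hb⟩ := IsLocalization.exist_integer_multiples_of_finite (nonZeroDivisors F[X]) f
  refine ⟨b, nonZeroDivisors.ne_zero b.2, ?_⟩
  choose g hg using hb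
  refine ⟨g, fun t => ?_⟩
  rw [hg t, Algebra.smul_def]

/-- the remainder modulo `X² + c` -/
theorem rem_form {F : Type*} [Field F] (c : F) (f : F[X]) :
    ∃ (q : F[X]) (f₁ f₀ : F), f = (X ^ 2 + C c) * q + (C f₁ * X + C f₀) := by
  have hm : (X ^ 2 + C c : F[X]).Monic := monic_X_pow_add_C c two_ne_zero
  have h1 := modByMonic_add_div f (X ^ 2 + C c : F[X])
  have h2 : (f %ₘ (X ^ 2 + C c)).degree < 2 := by
    have h3 := degree_modByMonic_lt f hm
    rwa [degree_X_pow_add_C (by norm_num) c] at h3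
  have h4 : (f %ₘ (X ^ 2 + C c)).degree ≤ 1 := by
    exact Order.le_of_lt_succ h2
  have h5 := eq_X_add_C_of_degree_le_one h4
  refine ⟨f /ₘ (X ^ 2 + C c), (f %ₘ (X ^ 2 + C c)).coeff 1, (f %ₘ (X ^ 2 + C c)).coeff 0, ?_⟩
  rw [← h5]
  linear_combination -h1

theorem dvd_quad {F : Type*} [Field F] (c A B E : F)
    (h : (X ^ 2 + C c : F[X]) ∣ C A * X ^ 2 + C B * X + C E) : B = 0 ∧ E = c * A := by
  obtain ⟨q, hq⟩ := h
  have h1 : C A * X ^ 2 + C B * X + C E - (X ^ 2 + C c) * C A =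
      (X ^ 2 + C c : F[X]) * (q - C A) := by
    rw [hq]; ring
  have h2 : C A * X ^ 2 + C B * X + C E - (X ^ 2 + C c : F[X]) * C A =
      C B * X + C (E - c * A) := by
    simp only [C_sub, C_mul]
    ring
  rw [h2] at h1
  have h3 : q - C A = 0 := by
    by_contra h0
    have h4 : ((X ^ 2 + C c : F[X]) * (q - C A)).natDegree = 2 + (q - C A).natDegree := by
      rw [natDegree_mul (X_pow_add_C_ne_zero (by norm_num) c) h0, natDegree_X_pow_add_C]
    rw [← h1] at h4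
    have h5 : (C B * X + C (E - c * A) : F[X]).natDegree ≤ 1 := natDegree_linear_le
    omega
  rw [h3, mul_zero] at h1
  have h6 := congrArg (fun p => coeff p 1) h1
  have h7 := congrArg (fun p => coeff p 0) h1
  simp at h6 h7
  exact ⟨h6, by linear_combination h7⟩

theorem dvd_sq {F : Type*} [Field F] (c : F) (hc : ¬ ∃ d : F, c = d ^ 2)
    (h : F[X]) (hd : (X ^ 2 + C c : F[X]) ∣ h ^ 2) : (X ^ 2 + C c : F[X]) ∣ h := by
  obtain ⟨q, h₁, h₀, e⟩ := rem_form c h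
  have h3 : (X ^ 2 + C c : F[X]) ∣ C (h₁ ^ 2) * X ^ 2 + C (2 * h₁ * h₀) * X + C (h₀ ^ 2) := by
    have : C (h₁ ^ 2) * X ^ 2 + C (2 * h₁ * h₀) * X + C (h₀ ^ 2) = h ^ 2 -
        (X ^ 2 + C c : F[X]) * (q * ((X ^ 2 + C c) * q + 2 * (C h₁ * X + C h₀))) := by
      rw [e]
      simp only [C_mul, C_pow, C_ofNat]
      ring
    rw [this]
    exact dvd_sub hd (Dvd.intro _ rfl)
  obtain ⟨e1, e2⟩ := dvd_quad c _ _ _ h3
  by_cases h10 : h₁ = 0
  · have h00 : h₀ = 0 := by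
      rw [h10] at e2
      exact pow_eq_zero_iff two_ne_zero |>.1 (by linear_combination e2)
    rw [e, h10, h00]
    simp
  · exact absurd ⟨h₀ / h₁, by field_simp; linear_combination -e2⟩ hc

theorem dvd_two {F : Type*} [Field F] (hF : ∀ x y : F, x ^ 2 + y ^ 2 = 0 → x = 0 ∧ y = 0) (c : F)
    (h2 : (2 : F) ≠ 0)
    (hc : ¬ ∃ d : F, c = d ^ 2) (f g : F[X]) (hd : (X ^ 2 + C c : F[X]) ∣ f ^ 2 + g ^ 2) :
    (X ^ 2 + C c : F[X]) ∣ f ∧ (X ^ 2 + C c : F[X]) ∣ g := by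
  obtain ⟨q, f₁, f₀, e⟩ := rem_form c f
  obtain ⟨r, g₁, g₀, e'⟩ := rem_form c g
  have h3 : (X ^ 2 + C c : F[X]) ∣ C (f₁ ^ 2 + g₁ ^ 2) * X ^ 2 +
      C (2 * (f₁ * f₀ + g₁ * g₀)) * X + C (f₀ ^ 2 + g₀ ^ 2) := by
    have : C (f₁ ^ 2 + g₁ ^ 2) * X ^ 2 +
      C (2 * (f₁ * f₀ + g₁ * g₀)) * X + C (f₀ ^ 2 + g₀ ^ 2) = (f ^ 2 + g ^ 2) -
        (X ^ 2 + C c : F[X]) * (q * ((X ^ 2 + C c) * q + 2 * (C f₁ * X + C f₀)) +
          r * ((X ^ 2 + C c) * r + 2 * (C g₁ * X + C g₀))) := by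
      rw [e, e']
      simp only [C_mul, C_pow, C_add, C_ofNat]
      ring
    rw [this]
    exact dvd_sub hd (Dvd.intro _ rfl)
  obtain ⟨e1, e2⟩ := dvd_quad c _ _ _ h3
  have e3 : f₁ * f₀ + g₁ * g₀ = 0 := (mul_eq_zero.1 e1).resolve_left h2
  by_cases h0 : f₁ ^ 2 + g₁ ^ 2 = 0
  · obtain ⟨k1, k2⟩ := hF _ _ h0
    rw [h0, mul_zero] at e2
    obtain ⟨k3, k4⟩ := hF _ _ e2
    rw [e, e', k1, k2, k3, k4]
    simp
  · exfalso
    apply hc
    refine ⟨(f₀ * g₁ - f₁ * g₀) / (f₁ ^ 2 + g₁ ^ 2), ?_⟩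
    field_simp
    linear_combination (-(f₁ ^ 2 + g₁ ^ 2)) * e2 + (f₁ * f₀ + g₁ * g₀) * e3

theorem no_two {F : Type*} [Field F] (hF : ∀ x y : F, x ^ 2 + y ^ 2 = 0 → x = 0 ∧ y = 0) (c : F)
    (h2 : (2 : F) ≠ 0) (hc : ¬ ∃ d : F, c = d ^ 2) (n : ℕ) :
    ∀ f g h : F[X], h.natDegree ≤ n → f ^ 2 + g ^ 2 = (X ^ 2 + C c) * h ^ 2 → h = 0 := by
  induction n using Nat.strong_induction_on with
  | _ n ih =>
    intro f g h hn e
    have hP : (X ^ 2 + C c : F[X]) ≠ 0 := X_pow_add_C_ne_zero (by norm_num) c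
    obtain ⟨⟨f', hf⟩, ⟨g', hg⟩⟩ := dvd_two hF c h2 hc f g (by rw [e]; exact Dvd.intro _ rfl)
    have e1 : (X ^ 2 + C c : F[X]) * (f' ^ 2 + g' ^ 2) = h ^ 2 := by
      apply mul_left_cancel₀ hP
      rw [← e, hf, hg]
      ring
    obtain ⟨h', hh⟩ := dvd_sq c hc h (by rw [← e1]; exact Dvd.intro _ rfl)
    have e2 : f' ^ 2 + g' ^ 2 = (X ^ 2 + C c : F[X]) * h' ^ 2 := by
      apply mul_left_cancel₀ hP
      rw [e1, hh]
      ring
    by_contra h0
    have h0' : h' ≠ 0 := by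
      rintro rfl
      rw [mul_zero] at hh
      exact h0 hh
    have hdeg : h.natDegree = 2 + h'.natDegree := by
      rw [hh, natDegree_mul hP h0', natDegree_X_pow_add_C]
    exact h0' (ih h'.natDegree (by omega) f' g' h' le_rfl e2)

/-- if `c` is not a square then `X² + c` is not a sum of two squares in `F(X)`. -/
theorem not_two {F : Type*} [Field F] (hF : ∀ x y : F, x ^ 2 + y ^ 2 = 0 → x = 0 ∧ y = 0) (c : F)
    (h2 : (2 : F) ≠ 0) (hc : ¬ ∃ d : F, c = d ^ 2) :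
    ¬ ∃ v w : RatFunc F, RatFunc.X ^ 2 + RatFunc.C c = v ^ 2 + w ^ 2 := by
  rintro ⟨v, w, e⟩
  obtain ⟨D, hD, f, hf⟩ := clear' ![v, w]
  have h0 := hf 0
  have h1 := hf 1
  simp only [Matrix.cons_val_zero, Matrix.cons_val_one] at h0 h1
  have hinj : Function.Injective (algebraMap F[X] (RatFunc F)) := IsFractionRing.injective _ _
  apply hD
  refine no_two hF c h2 hc D.natDegree (f 0) (f 1) D le_rfl ?_
  apply hinj
  rw [map_add, map_pow, map_pow, map_mul, map_pow, map_add, map_pow, RatFunc.algebraMap_X,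
    RatFunc.algebraMap_C, ← h0, ← h1, e]
  ring

/-- `1 + X²` is not a square in `F(X)`. -/
theorem not_one {F : Type*} [Field F] (h2 : (2 : F) ≠ 0) :
    ¬ ∃ d : RatFunc F, (1 + RatFunc.X ^ 2 : RatFunc F) = d ^ 2 := by
  rintro ⟨d, e⟩
  obtain ⟨D, hD, f, hf⟩ := clear' ![d]
  have h0 := hf 0
  simp only [Matrix.cons_val_zero] at h0
  have hinj : Function.Injective (algebraMap F[X] (RatFunc F)) := IsFractionRing.injective _ _
  have e1 : (X ^ 2 + C 1 : F[X]) * D ^ 2 = f 0 ^ 2 := by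
    apply hinj
    rw [map_pow, map_mul, map_pow, map_add, map_pow, RatFunc.algebraMap_X,
      RatFunc.algebraMap_C, ← h0, mul_pow, ← e, map_one]
    ring
  have key : ∀ n : ℕ, ∀ D f : F[X], D.natDegree ≤ n → (X ^ 2 + C 1 : F[X]) * D ^ 2 = f ^ 2 →
      D = 0 := by
    have dv : ∀ h : F[X], (X ^ 2 + C 1 : F[X]) ∣ h ^ 2 → (X ^ 2 + C 1 : F[X]) ∣ h := by
      intro h hd
      obtain ⟨q, h₁, h₀, e⟩ := rem_form 1 h
      have h3 : (X ^ 2 + C 1 : F[X]) ∣
          C (h₁ ^ 2) * X ^ 2 + C (2 * h₁ * h₀) * X + C (h₀ ^ 2) := by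
        have : C (h₁ ^ 2) * X ^ 2 + C (2 * h₁ * h₀) * X + C (h₀ ^ 2) = h ^ 2 -
            (X ^ 2 + C 1 : F[X]) * (q * ((X ^ 2 + C 1) * q + 2 * (C h₁ * X + C h₀))) := by
          rw [e]
          simp only [C_mul, C_pow, C_ofNat]
          ring
        rw [this]
        exact dvd_sub hd (Dvd.intro _ rfl)
      obtain ⟨e1, e2⟩ := dvd_quad 1 _ _ _ h3
      have e3 : h₁ * h₀ = 0 := by
        rw [mul_assoc] at e1
        exact (mul_eq_zero.1 e1).resolve_left h2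
      have e4 : h₁ = 0 ∧ h₀ = 0 := by
        rcases mul_eq_zero.1 e3 with h4 | h4
        · refine ⟨h4, ?_⟩
          rw [h4] at e2
          exact pow_eq_zero_iff two_ne_zero |>.1 (by linear_combination e2)
        · refine ⟨?_, h4⟩
          rw [h4] at e2
          exact pow_eq_zero_iff two_ne_zero |>.1 (by linear_combination -e2)
      rw [e, e4.1, e4.2]
      simp
    intro n
    induction n using Nat.strong_induction_on with
    | _ n ih =>
      intro D f hn e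
      have hP : (X ^ 2 + C 1 : F[X]) ≠ 0 := X_pow_add_C_ne_zero (by norm_num) 1
      obtain ⟨f', hf⟩ := dv f (by rw [← e]; exact Dvd.intro _ rfl)
      have e1 : (X ^ 2 + C 1 : F[X]) * f' ^ 2 = D ^ 2 := by
        apply mul_left_cancel₀ hP
        rw [e, hf]
        ring
      obtain ⟨D', hh⟩ := dv D (by rw [← e1]; exact Dvd.intro _ rfl)
      have e2 : (X ^ 2 + C 1 : F[X]) * D' ^ 2 = f' ^ 2 := by
        apply mul_left_cancel₀ hP
        rw [e1, hh]
        ring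
      by_contra h0
      have h0' : D' ≠ 0 := by
        rintro rfl
        rw [mul_zero] at hh
        exact h0 hh
      have hdeg : D.natDegree = 2 + D'.natDegree := by
        rw [hh, natDegree_mul hP h0', natDegree_X_pow_add_C]
      exact h0' (ih D'.natDegree (by omega) D' f' le_rfl e2)
  exact hD (key _ D (f 0) le_rfl e1)

end Pool.Agent.H43.WB
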